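import Pool.Agent.Helper55.TM.Basic

/-! Module ST of MP_fc8395_an: escape and structure of orbits. -/

set_option autoImplicit false

open scoped ContDiff Topology
open Filter Set

namespace TM

namespace ST

/-- outgoing points -/
def Out (p : Pt) : Prop := 1 ≤ |p.2.1| ∧ 1 ≤ |p.2.2| ∧ |xb p| ≤ |p.1|

lemma abs_x {e : ℝ} (he : 0 < e) {p : Pt} (hp : p ∈ Surf e) (h : Out p) :
    |p.2.1| + e ≤ |p.1| ∧ |p.2.2| + e ≤ |p.1| := by
  obtain ⟨hy, hz, hx⟩ := h
  have hD := D_sq hp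
  have hxe := x_eq p
  have hxbe := xb_eq p
  set y := p.2.1
  set z := p.2.2
  set x := p.1
  set d := D p
  rw [hxbe] at hx
  have h1 : (y * z + d) ^ 2 ≤ (y * z - d) ^ 2 := by
    rw [hxe] at hx
    exact sq_le_sq.2 hx
  have h2 : y * z * d ≤ 0 := by nlinarith
  have hy2 : 1 ≤ y ^ 2 := by
    rw [← sq_abs]; nlinarith
  have hz2 : 1 ≤ z ^ 2 := by
    rw [← sq_abs]; nlinarith
  have hd : e ≤ |d| := by
    rw [← abs_of_pos he]
    apply sq_le_sq.1
    rw [hD]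
    nlinarith [mul_nonneg (sub_nonneg.2 hy2) (sub_nonneg.2 hz2)]
  have h3 : |x| = |y * z| + |d| := by
    have h4 : |x| ^ 2 = (|y * z| + |d|) ^ 2 := by
      have e1 : |y * z| * |d| = -(y * z * d) := by
        rw [← abs_mul, abs_of_nonpos h2]
      rw [sq_abs, hxe, add_sq, sq_abs, sq_abs]
      linarith
    exact (pow_left_inj₀ (abs_nonneg _) (by positivity) two_ne_zero).1 h4
  rw [h3, abs_mul]
  constructor
  · nlinarith [abs_nonneg y, abs_nonneg z]
  · nlinarith [abs_nonneg y, abs_nonneg z]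

lemma out_Ustep {e : ℝ} (he : 0 < e) {p : Pt} (hp : p ∈ Surf e) (h : Out p) : Out (U p) := by
  obtain ⟨h1, h2⟩ := abs_x he hp h
  obtain ⟨hy, hz, hx⟩ := h
  refine ⟨hy, ?_, ?_⟩
  · show 1 ≤ |p.1|
    linarith
  · have e1 : xb (U p) = p.2.2 := by unfold xb U; ring
    have e2 : (U p).1 = 2 * p.1 * p.2.1 - p.2.2 := rfl
    rw [e1, e2]
    have h3 : |2 * p.1 * p.2.1| - |p.2.2| ≤ |2 * p.1 * p.2.1 - p.2.2| := abs_sub_abs_le_abs_sub _ _
    have h4 : |2 * p.1 * p.2.1| = 2 * (|p.1| * |p.2.1|) := by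
      rw [abs_mul, abs_mul, abs_of_pos (by norm_num : (0 : ℝ) < 2)]; ring
    nlinarith [abs_nonneg p.1, abs_nonneg p.2.1]

lemma out_P {p : Pt} (h : Out p) : Out (P p) := by
  obtain ⟨hy, hz, hx⟩ := h
  refine ⟨hz, hy, ?_⟩
  have e1 : xb (P p) = xb p := by unfold xb P; ring
  rw [e1]
  exact hx

lemma out_Uiter {e : ℝ} (he : 0 < e) {p : Pt} (hp : p ∈ Surf e) (h : Out p) (j : ℕ) :
    Out (U^[j] p) := by
  induction j with
  | zero => exact h
  | succ j ih =>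
    rw [Function.iterate_succ_apply']
    exact out_Ustep he (U_iter_mem hp j) ih

lemma out_T {e : ℝ} (he : 0 < e) {p : Pt} (hp : p ∈ Surf e) (h : Out p) (k : ℕ) :
    Out (T k p) := out_P (out_Uiter he hp h k)

lemma out_orb {e : ℝ} (he : 0 < e) {p : Pt} (hp : p ∈ Surf e) (h : Out p) (k : ℕ → ℕ) (n : ℕ) :
    Out (orb k n p) := by
  induction n with
  | zero => exact h
  | succ n ih => exact out_T he (orb_mem hp k n) ih (k n)

lemma out_or {p : Pt} (hy : 1 ≤ |p.2.1|) (hz : 1 ≤ |p.2.2|) : Out p ∨ Out (sg p) := by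
  rcases le_total |xb p| |p.1| with h | h
  · exact Or.inl ⟨hy, hz, h⟩
  · refine Or.inr ⟨hz, hy, ?_⟩
    have e1 : xb (sg p) = p.1 := by unfold xb sg; ring
    have e2 : (sg p).1 = xb p := rfl
    rw [e1, e2]
    exact h

lemma V_lt {e : ℝ} (he : 0 < e) : V e < 1 + e := by
  unfold V
  rw [Real.sqrt_lt' (by linarith)]
  nlinarith

lemma out_U' {e : ℝ} (he : 0 < e) {p : Pt} (hp : p ∈ Surf e) (h : Out p) (j : ℕ) :
    1 + j * e ≤ |(U^[j] p).2.2| := by
  induction j with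
  | zero => simpa using h.2.1
  | succ j ih =>
    have h1 := (abs_x he (U_iter_mem hp j) (out_Uiter he hp h j)).2
    rw [← U_iter_x]
    push_cast
    linarith

lemma out_growth' {e : ℝ} (he : 0 < e) {k : ℕ → ℕ} (hk : ∀ i, 1 ≤ k i) {p : Pt} (hp : p ∈ Surf e)
    (h : Out p) (n : ℕ) : 1 + n * e ≤ |yv k n p| := by
  induction n with
  | zero => simpa [yv, orb] using h.1
  | succ n ih =>
    have h0 := orb_mem hp k n
    have h1 := out_orb he hp h k n
    obtain ⟨j, hj⟩ : ∃ j, k n = j + 1 := ⟨k n - 1, by have := hk n; omega⟩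
    have h2 := (abs_x he (U_iter_mem h0 j) (out_Uiter he h0 h1 j)).1
    have h3 : yv k (n + 1) p = (U^[j] (orb k n p)).1 := by
      show (T (k n) (orb k n p)).2.1 = _
      rw [T_y, hj, U_iter_x]
    rw [h3]
    rw [U_iter_y] at h2
    have h4 : |(orb k n p).2.1| = |yv k n p| := rfl
    rw [h4] at h2
    push_cast
    linarith

end ST

open _root_.TM.ST

theorem out_growth {e : ℝ} (he : 0 < e) {k : ℕ → ℕ} (hk : ∀ i, 1 ≤ k i) {p : Pt} (hp : p ∈ Surf e)
    (hy : 1 ≤ |p.2.1|) (hz : 1 ≤ |p.2.2|) (hx : |xb p| ≤ |p.1|) (n : ℕ) :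
    1 + n * e ≤ |yv k n p| := out_growth' he hk hp ⟨hy, hz, hx⟩ n

theorem out_U {e : ℝ} (he : 0 < e) {p : Pt} (hp : p ∈ Surf e)
    (hy : 1 ≤ |p.2.1|) (hz : 1 ≤ |p.2.2|) (hx : |xb p| ≤ |p.1|) (j : ℕ) :
    1 + j * e ≤ |(U^[j] p).2.2| := out_U' he hp ⟨hy, hz, hx⟩ j

/-- growth backwards -/
lemma ST.back {e : ℝ} (he : 0 < e) {k : ℕ → ℕ} (hk : ∀ i, 1 ≤ k i) {p : Pt}
    (hp : p ∈ Surf e) {n m : ℕ} (hmn : m ≤ n) (h : Out (sg (orb k n p))) :
    1 + ((n - m : ℕ) : ℝ) * e ≤ |(orb k m p).2.2| := by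
  have h1 := out_growth' he (k := rev k n) (fun i => hk _) (sg_mem (orb_mem hp k n)) h (n - m)
  have h2 := orb_rev k n p (n - m) (by omega)
  unfold yv at h1
  rw [h2, show n - (n - m) = m by omega] at h1
  exact h1

lemma ST.fwd {e : ℝ} (he : 0 < e) {k : ℕ → ℕ} (hk : ∀ i, 1 ≤ k i) {p : Pt}
    (hp : p ∈ Surf e) {n N : ℕ} (hnN : n ≤ N) (h : Out (orb k n p)) :
    1 + ((N - n : ℕ) : ℝ) * e ≤ |yv k N p| := by
  have h1 := out_growth' he (k := fun i => k (n + i)) (fun i => hk _) (orb_mem hp k n) h (N - n)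
  unfold yv at h1 ⊢
  rw [← orb_add, show n + (N - n) = N by omega] at h1
  exact h1

theorem struct_pair {e : ℝ} (he : 0 < e) {k : ℕ → ℕ} (hk : ∀ i, 1 ≤ k i) {p : Pt}
    (hp : p ∈ Surf e) {m n N : ℕ} (hmn : m < n) (hnN : n < N)
    (hm : |(orb k m p).2.2| < V e) (hN : |yv k N p| < V e) :
    |yv k n p| < 1 ∨ |(orb k n p).2.2| < 1 := by
  by_contra hcon
  push Not at hcon
  obtain ⟨h1, h2⟩ := hcon
  have hV := V_lt he
  rcases out_or (p := orb k n p) h1 h2 with h | h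
  · have h3 := fwd he hk hp hnN.le h
    have h4 : (1 : ℝ) ≤ ((N - n : ℕ) : ℝ) := by exact_mod_cast (by omega : 1 ≤ N - n)
    nlinarith
  · have h3 := back he hk hp hmn.le h
    have h4 : (1 : ℝ) ≤ ((n - m : ℕ) : ℝ) := by exact_mod_cast (by omega : 1 ≤ n - m)
    nlinarith

theorem struct_rim {e : ℝ} (he : 0 < e) {p : Pt} (hp : p ∈ Surf e) (hy : 1 ≤ |p.2.1|)
    (hz : |p.2.2| < V e) {K : ℕ} (hK : |(U^[K] p).2.2| < V e) {j : ℕ} (hj : 0 < j) (hjK : j < K) :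
    |(U^[j] p).2.2| < 1 := by
  by_contra hcon
  push Not at hcon
  have hV := V_lt he
  have hyq : 1 ≤ |(U^[j] p).2.1| := by rw [U_iter_y]; exact hy
  rcases out_or (p := U^[j] p) hyq hcon with h | h
  · have h3 := out_U' he (U_iter_mem hp j) h (K - j)
    rw [← Function.iterate_add_apply, show K - j + j = K by omega] at h3
    have h4 : (1 : ℝ) ≤ ((K - j : ℕ) : ℝ) := by exact_mod_cast (by omega : 1 ≤ K - j)
    nlinarith
  · have h3 := out_U' he (P_mem (sg_mem (U_iter_mem hp j))) (out_P h) j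
    rw [U_iter_Psg] at h3
    have h5 : (P (sg p)).2.2 = p.2.2 := rfl
    rw [h5] at h3
    have h4 : (1 : ℝ) ≤ (j : ℝ) := by exact_mod_cast hj
    nlinarith

lemma ST.abs_y_le (p : Pt) : |p.2.1| ≤ ‖p‖ := by
  have h1 : ‖p.2‖ ≤ ‖p‖ := norm_snd_le p
  have h2 : ‖p.2.1‖ ≤ ‖p.2‖ := norm_fst_le p.2
  rw [← Real.norm_eq_abs]
  exact h2.trans h1

lemma ST.abs_z_le (p : Pt) : |p.2.2| ≤ ‖p‖ := by
  have h1 : ‖p.2‖ ≤ ‖p‖ := norm_snd_le p
  have h2 : ‖p.2.2‖ ≤ ‖p.2‖ := norm_snd_le p.2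
  rw [← Real.norm_eq_abs]
  exact h2.trans h1

theorem W_inf {e : ℝ} (he : 0 < e) {k : ℕ → ℕ} (hk : ∀ i, 1 ≤ k i) {p : Pt}
    (hp : p ∈ W e k) (n : ℕ) : ∃ m, n ≤ m ∧ |yv k m p| < 1 := by
  obtain ⟨hS, C, hC⟩ := hp
  by_contra hcon
  push Not at hcon
  -- the alternatives
  have hy : ∀ m, n ≤ m → 1 ≤ |(orb k m p).2.1| := fun m hm => hcon m hm
  have hz : ∀ m, n + 1 ≤ m → 1 ≤ |(orb k m p).2.2| := by
    intro m hm
    obtain ⟨l, rfl⟩ : ∃ l, m = l + 1 := ⟨m - 1, by omega⟩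
    rw [orb_succ_z]
    exact hy l (by omega)
  obtain ⟨M, hM⟩ := exists_nat_gt (C / e)
  have hM' : C < M * e := by rwa [div_lt_iff₀ he] at hM
  rcases out_or (p := orb k (n + 1 + M) p) (hy _ (by omega)) (hz _ (by omega)) with h | h
  · have h3 := fwd he hk hS (N := n + 1 + M + M) (by omega) h
    rw [show n + 1 + M + M - (n + 1 + M) = M by omega] at h3
    have h4 := (abs_y_le (orb k (n + 1 + M + M) p)).trans (hC _)
    unfold yv at h3
    linarith
  · have h3 := back he hk hS (m := n + 1) (by omega) h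
    rw [show n + 1 + M - (n + 1) = M by omega] at h3
    have h4 := (abs_z_le (orb k (n + 1) p)).trans (hC _)
    linarith

theorem W_of_inf {e : ℝ} (he : 0 < e) {k : ℕ → ℕ} (hk : ∀ i, 1 ≤ k i) {p : Pt}
    (hp : p ∈ Surf e) (h : ∀ n : ℕ, ∃ m, n ≤ m ∧ |yv k m p| < V e) : p ∈ W e k := by
  refine ⟨hp, ?_⟩
  have h1V := one_lt_V he
  obtain ⟨m0, -, hm0⟩ := h 0
  have hz0 : |(orb k (m0 + 1) p).2.2| < V e := by rw [orb_succ_z]; exact hm0
  have hpair : ∀ n, m0 + 1 < n → |(orb k n p).2.1| < 1 ∨ |(orb k n p).2.2| < 1 := by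
    intro n hn
    obtain ⟨N, hN, hNV⟩ := h (n + 1)
    exact struct_pair he hk hp hn (by omega) hz0 hNV
  have hy : ∀ n, m0 + 1 < n → |(orb k n p).2.1| ≤ 2 + e := by
    intro n hn
    by_cases hlt : |(orb k n p).2.1| < 1
    · linarith
    push Not at hlt
    have hzn : |(orb k n p).2.2| < 1 := (hpair n hn).resolve_left (by linarith)
    have hyn : |(orb k (n + 1) p).2.1| < 1 := by
      refine (hpair (n + 1) (by omega)).resolve_right ?_
      rw [orb_succ_z]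
      linarith
    have hyn' : |(U^[k n] (orb k n p)).2.2| < 1 := hyn
    have hx : |(orb k n p).1| < 1 := by
      have e1 : (orb k n p).1 = (U^[1] (orb k n p)).2.2 := rfl
      rw [e1]
      rcases eq_or_lt_of_le (hk n) with h1 | h1
      · rw [← h1] at hyn'
        exact hyn'
      · exact struct_rim he (orb_mem hp k n) hlt (by linarith) (K := k n) (by linarith)
          one_pos h1
    have hS : FV (orb k n p) = 1 + e ^ 2 := orb_mem hp k n
    unfold FV at hS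
    set x := (orb k n p).1
    set y := (orb k n p).2.1
    set z := (orb k n p).2.2
    have hx2 : x ^ 2 ≤ 1 := by rw [← sq_abs]; nlinarith [abs_nonneg x]
    have hz2 : z ^ 2 ≤ 1 := by rw [← sq_abs]; nlinarith [abs_nonneg z]
    have h5 : (y - x * z) ^ 2 ≤ (1 + e) ^ 2 := by
      have : (y - x * z) ^ 2 = e ^ 2 + (1 - x ^ 2) * (1 - z ^ 2) := by linear_combination hS
      rw [this]
      nlinarith [sq_nonneg x, sq_nonneg z, mul_nonneg (sub_nonneg.2 hx2) (sub_nonneg.2 hz2),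
        mul_nonneg (sq_nonneg x) (sq_nonneg z)]
    have h6 : |y - x * z| ≤ 1 + e := by
      rw [← abs_of_pos (by linarith : 0 < 1 + e)]
      exact sq_le_sq.1 h5
    have h7 : |x * z| ≤ 1 := by
      rw [abs_mul]
      nlinarith [abs_nonneg x, abs_nonneg z]
    calc |y| = |(y - x * z) + x * z| := by ring_nf
      _ ≤ |y - x * z| + |x * z| := abs_add_le _ _
      _ ≤ 2 + e := by linarith
  set M : ℝ := 2 + e with hM
  have hM0 : 0 < M := by linarith
  have hbig : ∀ n, m0 + 2 < n → ‖orb k n p‖ ≤ 2 * M ^ 2 + e + 1 + M := by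
    intro n hn
    have h1 := hy n (by omega)
    have h2 : |(orb k n p).2.2| ≤ M := by
      obtain ⟨l, rfl⟩ : ∃ l, n = l + 1 := ⟨n - 1, by omega⟩
      rw [orb_succ_z]
      exact hy l (by omega)
    have hD := D_sq (orb_mem hp k n)
    have hxe := x_eq (orb k n p)
    set x := (orb k n p).1
    set y := (orb k n p).2.1
    set z := (orb k n p).2.2
    set d := D (orb k n p)
    have hy2 : y ^ 2 ≤ M ^ 2 := by rw [← sq_abs]; exact pow_le_pow_left₀ (abs_nonneg _) h1 2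
    have hz2 : z ^ 2 ≤ M ^ 2 := by rw [← sq_abs]; exact pow_le_pow_left₀ (abs_nonneg _) h2 2
    have hd : |d| ≤ e + 1 + M ^ 2 := by
      rw [← abs_of_pos (by positivity : 0 < e + 1 + M ^ 2)]
      apply sq_le_sq.1
      rw [hD]
      nlinarith [sq_nonneg y, sq_nonneg z, mul_le_mul hy2 hz2 (sq_nonneg z) (sq_nonneg M),
        mul_nonneg (sq_nonneg y) (sq_nonneg z), sq_nonneg M, mul_nonneg he.le (sq_nonneg M)]
    have hyz : |y * z| ≤ M ^ 2 := by
      rw [abs_mul, sq]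
      exact mul_le_mul h1 h2 (abs_nonneg _) hM0.le
    have hx : |x| ≤ 2 * M ^ 2 + e + 1 := by
      rw [hxe]
      have := abs_sub (y * z) d
      linarith
    have hM2 : 0 ≤ M ^ 2 := sq_nonneg M
    rw [Prod.norm_def, Prod.norm_def, Real.norm_eq_abs, Real.norm_eq_abs, Real.norm_eq_abs]
    refine max_le ?_ (max_le ?_ ?_)
    · exact hx.trans (by linarith)
    · exact h1.trans (by linarith)
    · exact h2.trans (by linarith)
  refine ⟨2 * M ^ 2 + e + 1 + M + ∑ i ∈ Finset.range (m0 + 3), ‖orb k i p‖, fun n => ?_⟩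
  have hsum : 0 ≤ ∑ i ∈ Finset.range (m0 + 3), ‖orb k i p‖ :=
    Finset.sum_nonneg fun i _ => norm_nonneg _
  rcases lt_or_ge (m0 + 2) n with hn | hn
  · exact (hbig n hn).trans (by linarith)
  · have h8 : ‖orb k n p‖ ≤ ∑ i ∈ Finset.range (m0 + 3), ‖orb k i p‖ :=
      Finset.single_le_sum (f := fun i => ‖orb k i p‖) (fun i _ => norm_nonneg _)
        (Finset.mem_range.2 (by omega))
    have : 0 ≤ 2 * M ^ 2 + e + 1 + M := by positivity
    linarith

end TM
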