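import Pool.Agent.Helper55.TM.Basic

/-! Module UQ of MP_fc8395_an: uniqueness of the canonical direction up to sign. -/

set_option autoImplicit false

open scoped ContDiff Topology
open Filter Set

namespace TM

namespace UQ

/-- triple product -/
def tri (a b c : Pt) : ℝ :=
  a.1 * (b.2.1 * c.2.2 - b.2.2 * c.2.1) - a.2.1 * (b.1 * c.2.2 - b.2.2 * c.1) +
    a.2.2 * (b.1 * c.2.1 - b.2.1 * c.1)

/-- cross product -/
def crs (a b : Pt) : Pt :=
  (a.2.1 * b.2.2 - a.2.2 * b.2.1, a.2.2 * b.1 - a.1 * b.2.2, a.1 * b.2.1 - a.2.1 * b.1)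

/-- half the gradient of `FV` -/
def grd (p : Pt) : Pt := (p.1 - p.2.1 * p.2.2, p.2.1 - p.1 * p.2.2, p.2.2 - p.1 * p.2.1)

lemma dFV_eq (p v : Pt) : dFV p v = 2 * dot (grd p) v := by
  unfold dFV dot grd; ring

lemma grd_ne {e : ℝ} (he : 0 < e) {p : Pt} (hp : p ∈ Surf e) : 0 < dot (grd p) (grd p) := by
  by_contra hcon
  push Not at hcon
  have hD := D_sq hp
  unfold dot grd at hcon
  simp only at hcon
  have h1 : p.1 - p.2.1 * p.2.2 = 0 := by
    have : (p.1 - p.2.1 * p.2.2) ^ 2 = 0 := by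
      nlinarith [sq_nonneg (p.1 - p.2.1 * p.2.2),
        sq_nonneg (p.2.1 - p.1 * p.2.2), sq_nonneg (p.2.2 - p.1 * p.2.1)]
    exact pow_eq_zero_iff two_ne_zero |>.1 this
  have h2 : p.2.1 - p.1 * p.2.2 = 0 := by
    have : (p.2.1 - p.1 * p.2.2) ^ 2 = 0 := by
      nlinarith [sq_nonneg (p.1 - p.2.1 * p.2.2),
        sq_nonneg (p.2.1 - p.1 * p.2.2), sq_nonneg (p.2.2 - p.1 * p.2.1)]
    exact pow_eq_zero_iff two_ne_zero |>.1 this
  have h3 : p.2.2 - p.1 * p.2.1 = 0 := by
    have : (p.2.2 - p.1 * p.2.1) ^ 2 = 0 := by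
      nlinarith [sq_nonneg (p.1 - p.2.1 * p.2.2),
        sq_nonneg (p.2.1 - p.1 * p.2.2), sq_nonneg (p.2.2 - p.1 * p.2.1)]
    exact pow_eq_zero_iff two_ne_zero |>.1 this
  have hd0 : D p = 0 := by unfold D; linarith
  rw [hd0] at hD
  set x := p.1
  set y := p.2.1
  set z := p.2.2
  have hx : x = y * z := by linarith
  have h4 : y * (1 - z ^ 2) = 0 := by rw [hx] at h2; linear_combination h2
  have h5 : z * (1 - y ^ 2) = 0 := by rw [hx] at h3; linear_combination h3
  have he2 : 0 < e ^ 2 := by positivity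
  rcases mul_eq_zero.1 h4 with h6 | h6
  · rw [h6] at hD h5
    have hz : z = 0 := by linarith
    rw [hz] at hD
    linarith
  · rw [h6] at hD
    linarith

lemma tri_zero {g u u' w : Pt} (hg : 0 < dot g g) (h1 : dot g u = 0) (h2 : dot g u' = 0)
    (h3 : dot g w = 0) : tri u u' w = 0 := by
  have h : tri u u' w * dot g g = 0 := by
    have e1 : tri u u' w * g.1 = (crs u u').1 * dot g w + (crs u' w).1 * dot g u +
        (crs w u).1 * dot g u' := by
      unfold tri crs dot; ring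
    have e2 : tri u u' w * g.2.1 = (crs u u').2.1 * dot g w + (crs u' w).2.1 * dot g u +
        (crs w u).2.1 * dot g u' := by
      unfold tri crs dot; ring
    have e3 : tri u u' w * g.2.2 = (crs u u').2.2 * dot g w + (crs u' w).2.2 * dot g u +
        (crs w u).2.2 * dot g u' := by
      unfold tri crs dot; ring
    rw [h1, h2, h3] at e1 e2 e3
    simp only [mul_zero, add_zero] at e1 e2 e3
    unfold dot
    linear_combination g.1 * e1 + g.2.1 * e2 + g.2.2 * e3
  rcases mul_eq_zero.1 h with h | h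
  · exact h
  · linarith

lemma kills_unique {e : ℝ} (he : 0 < e) {p : Pt} (hp : p ∈ Surf e) {f : Pt → ℝ} {u u' : Pt}
    (h : Kills f p u) (h' : Kills f p u') : u' = u ∨ u' = -u := by
  obtain ⟨hu1, hu2, hu3, w, hw1, hw2⟩ := h
  obtain ⟨hv1, hv2, hv3, -⟩ := h'
  rw [dFV_eq] at hu2 hv2 hw1
  have hg := grd_ne he hp
  set g := grd p
  have h1 : dot g u = 0 := by linarith
  have h2 : dot g u' = 0 := by linarith
  have h3 : dot g w = 0 := by linarith
  have h4 := tri_zero hg h1 h2 h3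
  set L := fderiv ℝ f p
  -- the four vector identity
  have h5 : (tri u u' g) • w = (-(tri g u' w)) • u + (-(tri u g w)) • u' := by
    have e0 : ∀ a b c d : Pt, (tri a b c) • d = (tri d b c) • a + (tri a d c) • b +
        (tri a b d) • c := by
      intro a b c d
      obtain ⟨a1, a2, a3⟩ := a
      obtain ⟨b1, b2, b3⟩ := b
      obtain ⟨c1, c2, c3⟩ := c
      obtain ⟨d1, d2, d3⟩ := d
      simp only [tri, Prod.smul_mk, Prod.mk_add_mk, smul_eq_mul, Prod.mk.injEq]
      refine ⟨by ring, by ring, by ring⟩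
    have e1 := e0 u u' w g
    rw [h4, zero_smul] at e1
    have e2 : (tri u u' g) • w = -((tri g u' w) • u + (tri u g w) • u') := by
      rw [eq_neg_iff_add_eq_zero, add_comm]
      exact e1.symm
    rw [e2, neg_add, neg_smul, neg_smul]
  have h6 : tri u u' g = 0 := by
    have h7 := congrArg L h5
    rw [map_add, map_smul, map_smul, map_smul, hu3, hv3, smul_zero, smul_zero, add_zero,
      smul_eq_mul] at h7
    exact (mul_eq_zero.1 h7).resolve_right hw2
  -- the cross product vanishes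
  have h8 : dot (crs u u') (crs u u') * dot g g = 0 := by
    have e1 : dot (crs u u') (crs u u') * dot g g = (tri u u' g) ^ 2 +
        dot (crs (crs u u') g) (crs (crs u u') g) := by
      unfold dot crs tri; ring
    have e2 : crs (crs u u') g = (dot g u) • u' - (dot g u') • u := by
      obtain ⟨a1, a2, a3⟩ := u
      obtain ⟨b1, b2, b3⟩ := u'
      obtain ⟨c1, c2, c3⟩ := g
      simp only [crs, dot, Prod.smul_mk, Prod.mk_sub_mk, smul_eq_mul, Prod.mk.injEq]
      refine ⟨by ring, by ring, by ring⟩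
    rw [e1, h6, e2, h1, h2]
    simp [dot]
  have h9 : dot (crs u u') (crs u u') = 0 := (mul_eq_zero.1 h8).resolve_right hg.ne'
  have h10 : dot (crs u u') (crs u u') = dot u u * dot u' u' - dot u u' ^ 2 := by
    unfold dot crs; ring
  rw [h9, hu1, hv1] at h10
  have h11 : (dot u u' - 1) * (dot u u' + 1) = 0 := by linear_combination h10
  have hz : ∀ v : Pt, dot v v = 0 → v = 0 := by
    intro v hv
    unfold dot at hv
    have a1 : v.1 = 0 := by
      have : v.1 ^ 2 = 0 := by nlinarith [sq_nonneg v.1, sq_nonneg v.2.1, sq_nonneg v.2.2]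
      exact pow_eq_zero_iff two_ne_zero |>.1 this
    have a2 : v.2.1 = 0 := by
      have : v.2.1 ^ 2 = 0 := by nlinarith [sq_nonneg v.1, sq_nonneg v.2.1, sq_nonneg v.2.2]
      exact pow_eq_zero_iff two_ne_zero |>.1 this
    have a3 : v.2.2 = 0 := by
      have : v.2.2 ^ 2 = 0 := by nlinarith [sq_nonneg v.1, sq_nonneg v.2.1, sq_nonneg v.2.2]
      exact pow_eq_zero_iff two_ne_zero |>.1 this
    exact Prod.ext a1 (Prod.ext a2 a3)
  rcases mul_eq_zero.1 h11 with h12 | h12
  · left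
    have : dot (u' - u) (u' - u) = 0 := by
      have e1 : dot (u' - u) (u' - u) = dot u' u' + dot u u - 2 * dot u u' := by
        simp only [dot, Prod.fst_sub, Prod.snd_sub]; ring
      rw [e1, hu1, hv1]; linarith
    exact sub_eq_zero.1 (hz _ this)
  · right
    have : dot (u' + u) (u' + u) = 0 := by
      have e1 : dot (u' + u) (u' + u) = dot u' u' + dot u u + 2 * dot u u' := by
        simp only [dot, Prod.fst_add, Prod.snd_add]; ring
      rw [e1, hu1, hv1]; linarith
    exact eq_neg_of_add_eq_zero_left (hz _ this)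

lemma dot_neg (u v : Pt) : dot u (-v) = -dot u v := by
  simp only [dot, Prod.fst_neg, Prod.snd_neg]; ring

lemma dot_smul (c : ℝ) (u v : Pt) : dot u (c • v) = c * dot u v := by
  simp only [dot, Prod.smul_fst, Prod.smul_snd, smul_eq_mul]; ring

lemma smul_dot (c : ℝ) (u v : Pt) : dot (c • u) v = c * dot u v := by
  simp only [dot, Prod.smul_fst, Prod.smul_snd, smul_eq_mul]; ring

/-- signs -/
lemma kills_sign {e : ℝ} (he : 0 < e) {p : Pt} (hp : p ∈ Surf e) {f : Pt → ℝ} {u u' : Pt}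
    (h : Kills f p u) (h' : Kills f p u') : ∃ ε : ℝ, (ε = 1 ∨ ε = -1) ∧ u = ε • u' := by
  rcases kills_unique he hp h h' with h1 | h1
  · exact ⟨1, Or.inl rfl, by rw [h1, one_smul]⟩
  · exact ⟨-1, Or.inr rfl, by rw [h1, neg_one_smul, neg_neg]⟩

lemma rimFold_smul (w : ℕ → ℝ) (u u' : ℕ → Pt) (ε : ℝ) (J : ℕ)
    (h : ∀ j, 1 ≤ j → j ≤ J → w j ≠ 0 → u j = ε • u' j) (s : Pt) :
    rimFold w u J (ε • s) = ε • rimFold w u' J s := by
  induction J with
  | zero => rfl
  | succ J ih =>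
    have ih' := ih (fun j h1 h2 => h j h1 (by omega))
    show w (J + 1) • u (J + 1) + (1 - w (J + 1)) • rimFold w u J (ε • s) =
      ε • (w (J + 1) • u' (J + 1) + (1 - w (J + 1)) • rimFold w u' J s)
    rw [ih', smul_add, smul_comm ε (1 - w (J + 1))]
    congr 1
    by_cases hw : w (J + 1) = 0
    · rw [hw, zero_smul, zero_smul, smul_zero]
    · rw [h (J + 1) (by omega) le_rfl hw, smul_comm]

theorem unique_le {e : ℝ} (he : 0 < e) {k : ℕ → ℕ} {χ : ℝ → ℝ} {p v v' : Pt} (hp : p ∈ Surf e)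
    (N0 N0' : ℕ) (hN : N0 ≤ N0') (uy uy' : ℕ → Pt) (ut ut' : ℕ → ℕ → Pt) (Act Act' : Set Pt)
    (b1 : χ (yv k N0' p) = 1)
    (a2 : ∀ n, N0 ≤ n → χ (yv k n p) ≠ 0 → Kills (yv k n) p (uy n) ∧ uy n ∈ Act)
    (b2 : ∀ n, N0' ≤ n → χ (yv k n p) ≠ 0 → Kills (yv k n) p (uy' n) ∧ uy' n ∈ Act')
    (a3 : ∀ n, N0 < n → ∀ j, 1 ≤ j → j < k n → χ (tv k n j p) ≠ 0 →
      Kills (tv k n j) p (ut n j) ∧ ut n j ∈ Act)
    (b3 : ∀ n, N0' < n → ∀ j, 1 ≤ j → j < k n → χ (tv k n j p) ≠ 0 →
      Kills (tv k n j) p (ut' n j) ∧ ut' n j ∈ Act')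
    (a4 : ∀ u ∈ Act, ∀ u' ∈ Act, 0 < dot u u') (b4 : ∀ u ∈ Act', ∀ u' ∈ Act', 0 < dot u u')
    (a5 : Filter.Tendsto (stt k (fun n => χ (yv k n p)) uy (fun n j => χ (tv k n j p)) ut N0)
      Filter.atTop (nhds v))
    (b5 : Filter.Tendsto (stt k (fun n => χ (yv k n p)) uy' (fun n j => χ (tv k n j p)) ut' N0')
      Filter.atTop (nhds v')) : ∃ ε : ℝ, (ε = 1 ∨ ε = -1) ∧ v = ε • v' := by
  have c0 : χ (yv k N0' p) ≠ 0 := by rw [b1]; norm_num
  obtain ⟨a20, a21⟩ := a2 N0' hN c0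
  obtain ⟨b20, b21⟩ := b2 N0' le_rfl c0
  obtain ⟨ε, hε, hu⟩ := kills_sign he hp a20 b20
  have hε2 : ε * ε = 1 := by rcases hε with h | h <;> rw [h] <;> norm_num
  -- all signs are equal
  have key : ∀ (f : Pt → ℝ) (x x' : Pt), Kills f p x → Kills f p x' → x ∈ Act → x' ∈ Act' →
      x = ε • x' := by
    intro f x x' hx hx' hA hA'
    obtain ⟨δ, hδ, hxx⟩ := kills_sign he hp hx hx'
    have p1 := a4 _ a21 _ hA
    have p2 := b4 _ b21 _ hA'
    rw [hu, hxx, smul_dot, dot_smul] at p1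
    have h3 : 0 < ε * δ := by
      by_contra hcon
      push Not at hcon
      nlinarith
    have h4 : δ = ε := by
      rcases hε with h | h <;> rcases hδ with h' | h' <;> rw [h, h'] at h3 ⊢ <;> norm_num at h3
    rw [hxx, h4]
  -- the states
  have hst : ∀ i, stt k (fun n => χ (yv k n p)) uy (fun n j => χ (tv k n j p)) ut N0
      ((N0' - N0) + i) =
      ε • stt k (fun n => χ (yv k n p)) uy' (fun n j => χ (tv k n j p)) ut' N0' i := by
    intro i
    induction i with
    | zero =>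
      have e1 : stt k (fun n => χ (yv k n p)) uy (fun n j => χ (tv k n j p)) ut N0
          (N0' - N0 + 0) = uy N0' := by
        rw [Nat.add_zero]
        rcases Nat.eq_zero_or_pos (N0' - N0) with h0 | h0
        · rw [h0, show N0' = N0 by omega]
          rfl
        · obtain ⟨m, hm⟩ : ∃ m, N0' - N0 = m + 1 := ⟨N0' - N0 - 1, by omega⟩
          have hm' : N0 + m + 1 = N0' := by omega
          rw [hm]
          show χ (yv k (N0 + m + 1) p) • uy (N0 + m + 1) +
            (1 - χ (yv k (N0 + m + 1) p)) • rimFold _ _ _ _ = _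
          rw [hm', b1]
          simp
      rw [e1, hu]
      rfl
    | succ i ih =>
      have hidx : N0 + (N0' - N0 + i) + 1 = N0' + i + 1 := by omega
      rw [← Nat.add_assoc]
      show χ (yv k (N0 + (N0' - N0 + i) + 1) p) • uy (N0 + (N0' - N0 + i) + 1) +
          (1 - χ (yv k (N0 + (N0' - N0 + i) + 1) p)) •
            rimFold (fun j => χ (tv k (N0 + (N0' - N0 + i) + 1) j p))
              (ut (N0 + (N0' - N0 + i) + 1)) (k (N0 + (N0' - N0 + i) + 1) - 1)
              (stt k (fun n => χ (yv k n p)) uy (fun n j => χ (tv k n j p)) ut N0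
                (N0' - N0 + i)) =
        ε • (χ (yv k (N0' + i + 1) p) • uy' (N0' + i + 1) +
          (1 - χ (yv k (N0' + i + 1) p)) •
            rimFold (fun j => χ (tv k (N0' + i + 1) j p))
              (ut' (N0' + i + 1)) (k (N0' + i + 1) - 1)
              (stt k (fun n => χ (yv k n p)) uy' (fun n j => χ (tv k n j p)) ut' N0' i))
      rw [hidx, ih, rimFold_smul _ (ut (N0' + i + 1)) (ut' (N0' + i + 1)) ε, smul_add,
        smul_comm ε (1 - χ (yv k (N0' + i + 1) p))]
      · congr 1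
        by_cases hw : χ (yv k (N0' + i + 1) p) = 0
        · rw [hw, zero_smul, zero_smul, smul_zero]
        · obtain ⟨q1, q2⟩ := a2 (N0' + i + 1) (by omega) hw
          obtain ⟨q3, q4⟩ := b2 (N0' + i + 1) (by omega) hw
          rw [key _ _ _ q1 q3 q2 q4, smul_comm]
      · intro j h1 h2 hw
        obtain ⟨q1, q2⟩ := a3 (N0' + i + 1) (by omega) j h1 (by omega) hw
        obtain ⟨q3, q4⟩ := b3 (N0' + i + 1) (by omega) j h1 (by omega) hw
        exact key _ _ _ q1 q3 q2 q4
  refine ⟨ε, hε, ?_⟩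
  have t1 : Tendsto (fun i => stt k (fun n => χ (yv k n p)) uy (fun n j => χ (tv k n j p)) ut N0
      ((N0' - N0) + i)) atTop (nhds v) := by
    have : Tendsto (fun i : ℕ => (N0' - N0) + i) atTop atTop :=
      tendsto_atTop_mono (fun i => Nat.le_add_left _ _) tendsto_id
    exact a5.comp this
  simp only [hst] at t1
  exact tendsto_nhds_unique t1 (b5.const_smul ε)

end UQ

theorem IsCan_unique {e : ℝ} (he : 0 < e) {k : ℕ → ℕ} {χ : ℝ → ℝ} {p v v' : Pt}
    (hp : p ∈ Surf e) (h : IsCan k χ p v) (h' : IsCan k χ p v') : v' = v ∨ v' = -v := by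
  obtain ⟨N0, uy, ut, Act, a1, a2, a3, a4, a5⟩ := h
  obtain ⟨N0', uy', ut', Act', b1, b2, b3, b4, b5⟩ := h'
  rcases le_total N0 N0' with hN | hN
  · obtain ⟨ε, hε, hv⟩ := UQ.unique_le he hp N0 N0' hN uy uy' ut ut' Act Act' b1 a2 b2 a3 b3
      a4 b4 a5 b5
    rcases hε with h | h
    · left; rw [hv, h, one_smul]
    · right; rw [hv, h, neg_one_smul, neg_neg]
  · obtain ⟨ε, hε, hv⟩ := UQ.unique_le he hp N0' N0 hN uy' uy ut' ut Act' Act a1 b2 a2 b3 a3
      b4 a4 b5 a5
    rcases hε with h | h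
    · left; rw [hv, h, one_smul]
    · right; rw [hv, h, neg_one_smul]

end TM
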